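import Pool.Agent.Q56.TF.Ord

/-!
# Windows around vectors of members of real families
-/

set_option autoImplicit false

namespace Pool.Agent.Q56.TF

open Finset
open Pool.Agent.H373R2.T7 (energy ev_L')

/-- the integral parts of the members of a real family are of the right size and of nearly minimal energy -/
def Flo (p B C N x : ℕ) (r : ℕ → ℝ) : Prop :=
  (∀ m ∈ Icc 1 x, |⌊r m⌋| ≤ (B : ℤ) * N) ∧
    (energy p x (fun m => ⌊r m⌋) : ℝ) * N ≤ Real.log N ^ C * (x : ℝ) ^ (2 * p)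

lemma flo_of (p B C : ℕ) : ∃ N₀ : ℕ, ∀ N : ℕ, N₀ ≤ N → ∀ (x : ℕ) (r : ℕ → ℝ),
    (∀ m ∈ Icc 1 x, |r m| ≤ B * N) → (renergy p x r : ℝ) * N ≤ Real.log N ^ C * (x : ℝ) ^ (2 * p) →
    Flo p (B + 1) (C + 1) N x r := by
  obtain ⟨N1, h1⟩ := ev_L' (4 * p + 3)
  refine ⟨N1 + 1, fun N hN x r hr hE => ⟨fun m hm => ?_, ?_⟩⟩
  · have h2 := hr m hm
    have h3 := Int.floor_le (r m)
    have h4 := Int.lt_floor_add_one (r m)
    have hN1 : (1 : ℝ) ≤ N := by exact_mod_cast (by omega : 1 ≤ N)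
    have h5 : ((|⌊r m⌋| : ℤ) : ℝ) ≤ (((B + 1 : ℕ) : ℤ) * (N : ℤ) : ℤ) := by
      push_cast
      rw [abs_le] at h2 ⊢
      constructor <;> nlinarith
    exact_mod_cast h5
  · have hL : 4 * (p : ℝ) + 3 ≤ Real.log N := by exact_mod_cast h1 N (by omega)
    have h2 := energy_near p x 1 r (fun m => ⌊r m⌋) (fun m _ => by
      have h3 := Int.floor_le (r m)
      have h4 := Int.lt_floor_add_one (r m)
      push_cast
      rw [abs_le]
      constructor <;> linarith)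
    have h3 : (energy p x (fun m => ⌊r m⌋) : ℝ) ≤ (4 * p + 3) * renergy p x r := by
      have : (energy p x (fun m => ⌊r m⌋) : ℝ) ≤ ((4 * p * 1 + 3 : ℕ) : ℝ) * renergy p x r := by exact_mod_cast h2
      push_cast at this
      linarith
    have hL0 : 0 ≤ Real.log N := Real.log_natCast_nonneg N
    calc (energy p x (fun m => ⌊r m⌋) : ℝ) * N ≤ ((4 * p + 3) * renergy p x r) * N := by gcongr
      _ = (4 * p + 3) * (renergy p x r * N) := by ring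
      _ ≤ Real.log N * (Real.log N ^ C * (x : ℝ) ^ (2 * p)) := by
          apply mul_le_mul hL hE (by positivity) hL0
      _ = _ := by ring

lemma flo_base {f : ℕ → ℝ} {c : ℝ} (h : Base f c) (hc : 1 ≤ c) (B C : ℕ) : ∃ p B' C' N₀ : ℕ, ∀ N : ℕ, N₀ ≤ N →
    ∀ x : ℕ, (x : ℝ) ^ c ≤ B * N → (N : ℝ) ≤ Real.log N ^ C * (x : ℝ) ^ c → ∀ β : ℝ, |β| ≤ B * N →
    Flo p B' C' N x (fun m => β + f m) := by
  obtain ⟨p, B', C', N₀, h1⟩ := fam_base h hc B C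
  obtain ⟨N₁, h2⟩ := flo_of p B' C'
  refine ⟨p, B' + 1, C' + 1, N₀ + N₁, fun N hN x hx1 hx2 β hβ => ?_⟩
  obtain ⟨h3, h4⟩ := h1 N (by omega) x hx1 hx2 β hβ
  exact h2 N (by omega) x _ h3 h4

lemma Flo.mono {p p' B B' C C' N x : ℕ} {r : ℕ → ℝ} (h : Flo p B C N x r) (hp : p ≤ p') (hB : B ≤ B') (hC : C ≤ C')
    (hlog : 1 ≤ Real.log N) : Flo p' B' C' N x r := by
  obtain ⟨h1, h2⟩ := h
  refine ⟨fun m hm => (h1 m hm).trans ?_, ?_⟩
  · have : (B : ℤ) ≤ B' := by exact_mod_cast hB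
    have : (0 : ℤ) ≤ N := Nat.cast_nonneg _
    nlinarith
  · have h3 : (energy p x (fun m => ⌊r m⌋) : ℝ) * N ≤ Real.log N ^ C' * (x : ℝ) ^ (2 * p) := by
      refine h2.trans ?_
      apply mul_le_mul_of_nonneg_right _ (by positivity)
      exact pow_le_pow_right₀ hlog hC
    clear h2
    induction p', hp using Nat.le_induction with
    | base => exact h3
    | succ q _ ih =>
      have h4 : (energy (q + 1) x (fun m => ⌊r m⌋) : ℝ) ≤ (x : ℝ) ^ 2 * energy q x (fun m => ⌊r m⌋) := by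
        exact_mod_cast energy_succ q x (fun m => ⌊r m⌋)
      have hN0 : (0 : ℝ) ≤ N := Nat.cast_nonneg _
      calc (energy (q + 1) x (fun m => ⌊r m⌋) : ℝ) * N ≤ ((x : ℝ) ^ 2 * energy q x (fun m => ⌊r m⌋)) * N :=
            mul_le_mul_of_nonneg_right h4 hN0
        _ = (x : ℝ) ^ 2 * (energy q x (fun m => ⌊r m⌋) * N) := by ring
        _ ≤ (x : ℝ) ^ 2 * (Real.log N ^ C' * (x : ℝ) ^ (2 * q)) := mul_le_mul_of_nonneg_left ih (by positivity)
        _ = Real.log N ^ C' * (x : ℝ) ^ (2 * (q + 1)) := by ring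

/-- several sequences, with the same order of the energies -/
lemma flo_vec {k : ℕ} (f : Fin k → ℕ → ℝ) (e : Fin k → ℝ) (h : ∀ i, Base (f i) (e i)) (he : ∀ i, 1 ≤ e i) (B C : ℕ) :
    ∃ p B' C' N₀ : ℕ, ∀ N : ℕ, N₀ ≤ N → ∀ x : Fin k → ℕ, (∀ i, (x i : ℝ) ^ (e i) ≤ B * N) →
    (∀ i, (N : ℝ) ≤ Real.log N ^ C * (x i : ℝ) ^ (e i)) → ∀ β : Fin k → ℝ, (∀ i, |β i| ≤ B * N) →
    ∀ i, Flo p B' C' N (x i) (fun m => β i + f i m) := by
  choose p B' C' N₀ h1 using fun i => flo_base (h i) (he i) B C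
  obtain ⟨N₁, h2⟩ := ev_L' 1
  refine ⟨∑ i, p i, ∑ i, B' i, ∑ i, C' i, ∑ i, N₀ i + N₁, fun N hN x hx1 hx2 β hβ i => ?_⟩
  have hle : ∀ g : Fin k → ℕ, g i ≤ ∑ j, g j := fun g => single_le_sum (f := g) (fun _ _ => Nat.zero_le _) (mem_univ i)
  have h3 := hle N₀
  have hlog : (1 : ℝ) ≤ Real.log N := by exact_mod_cast h2 N (by omega)
  exact (h1 i N (by omega) (x i) (hx1 i) (hx2 i) (β i) (hβ i)).mono (hle p) (hle B') (hle C') hlog

/-- windows around vectors -/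
theorem vec (k A B C p U : ℕ) : ∃ N₀ : ℕ, ∀ N : ℕ, N₀ ≤ N → ∀ (x : Fin k → ℕ) (r : Fin k → ℕ → ℝ),
    (∀ i, Flo p B C N (x i) (r i)) → ∀ Q : (Fin k → ℤ) → Prop,
    (∀ s : Fin k → ℕ → ℤ, (∀ i, ∀ j ∈ Icc 1 (x i), |s i j| ≤ ((B + 1 : ℕ) : ℤ) * N) →
      (∀ i, (energy p (x i) (s i) : ℝ) * N ≤ Real.log N ^ C * (x i : ℝ) ^ (2 * p)) →
      ∀ 𝒮 : Finset (Fin k → ℕ), 𝒮 ⊆ Fintype.piFinset (fun i => Icc 1 (x i)) →
      (∀ q ∈ 𝒮, Q (fun i => s i (q i))) → (𝒮.card : ℝ) ≤ (∏ i, (x i : ℝ)) / Real.log N ^ (U + (A + 1) * k)) →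
    ∀ 𝒮 : Finset (Fin k → ℕ), 𝒮 ⊆ Fintype.piFinset (fun i => Icc 1 (x i)) →
    (∀ q ∈ 𝒮, ∃ a : Fin k → ℤ, (∀ i, |(a i : ℝ) - r i (q i)| ≤ Real.log N ^ A) ∧ Q a) →
    (𝒮.card : ℝ) ≤ (∏ i, (x i : ℝ)) / Real.log N ^ U := by
  classical
  obtain ⟨N1, h1⟩ := ev_L' 5
  obtain ⟨N2, h2⟩ := Pool.Agent.TH823.Fam.log_pow_small A
  refine ⟨N1 + N2 + 3, fun N hN x r hr Q H 𝒮 h𝒮 hQ => ?_⟩
  have hL : (5 : ℝ) ≤ Real.log N := by exact_mod_cast h1 N (by omega)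
  have hsm := h2 N (by omega)
  have hL0 : 0 < Real.log N := by linarith
  have hL1 : 1 ≤ Real.log N := by linarith
  have hLA : 1 ≤ Real.log N ^ A := one_le_pow₀ hL1
  obtain ⟨J, hJ⟩ : ∃ J : ℕ, J = ⌊Real.log N ^ A + 1⌋₊ := ⟨_, rfl⟩
  have hJ1 : (J : ℝ) ≤ Real.log N ^ A + 1 := by rw [hJ]; exact Nat.floor_le (by positivity)
  have hJN : (J : ℝ) ≤ N := by linarith
  obtain ⟨Ω, hΩ⟩ : ∃ Ω : Finset (Fin k → ℤ), Ω = Fintype.piFinset (fun _ : Fin k => Icc (-(J : ℤ)) J) := ⟨_, rfl⟩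
  have hΩc : (Ω.card : ℝ) ≤ Real.log N ^ ((A + 1) * k) := by
    rw [hΩ, Fintype.card_piFinset]
    simp only [Int.card_Icc, prod_const, card_univ, Fintype.card_fin]
    have e1 : ((J : ℤ) + 1 - -(J : ℤ)).toNat = 2 * J + 1 := by omega
    rw [e1, pow_mul]
    push_cast
    apply pow_le_pow_left₀ (by positivity)
    calc 2 * (J : ℝ) + 1 ≤ 5 * Real.log N ^ A := by linarith
      _ ≤ Real.log N * Real.log N ^ A := mul_le_mul_of_nonneg_right hL (by positivity)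
      _ = Real.log N ^ (A + 1) := by ring
  have hcov : 𝒮 ⊆ Ω.biUnion (fun j => 𝒮.filter (fun q => Q (fun i => j i + ⌊r i (q i)⌋))) := by
    intro q hq
    obtain ⟨a, ha, haQ⟩ := hQ q hq
    rw [mem_biUnion]
    refine ⟨fun i => a i - ⌊r i (q i)⌋, ?_, ?_⟩
    · rw [hΩ, Fintype.mem_piFinset]
      intro i
      rw [mem_Icc, ← abs_le]
      have h3 := ha i
      have h4 := Int.floor_le (r i (q i))
      have h5 := Int.lt_floor_add_one (r i (q i))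
      have h6 : ((|a i - ⌊r i (q i)⌋| : ℤ) : ℝ) ≤ Real.log N ^ A + 1 := by
        push_cast
        rw [abs_le] at h3 ⊢
        constructor <;> linarith
      have h7 : (((a i - ⌊r i (q i)⌋).natAbs : ℕ) : ℝ) ≤ Real.log N ^ A + 1 := by
        rw [Nat.cast_natAbs]
        exact h6
      have h8 : (a i - ⌊r i (q i)⌋).natAbs ≤ J := by
        rw [hJ]
        exact Nat.le_floor h7
      rw [Int.abs_eq_natAbs]
      exact_mod_cast h8
    · rw [mem_filter]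
      refine ⟨hq, ?_⟩
      simp only [sub_add_cancel]
      exact haQ
  have hone : ∀ j ∈ Ω, ((𝒮.filter (fun q => Q (fun i => j i + ⌊r i (q i)⌋))).card : ℝ) ≤
      (∏ i, (x i : ℝ)) / Real.log N ^ (U + (A + 1) * k) := by
    intro j hj
    rw [hΩ, Fintype.mem_piFinset] at hj
    refine H (fun i m => j i + ⌊r i m⌋) ?_ ?_ _ ((filter_subset _ _).trans h𝒮) (fun q hq => (mem_filter.1 hq).2)
    · intro i m hm
      have h3 := (hr i).1 m hm
      have h4 := hj i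
      rw [mem_Icc, ← abs_le] at h4
      have h5 : (J : ℤ) ≤ N := by exact_mod_cast hJN
      refine (abs_add_le _ _).trans ?_
      push_cast
      linarith
    · intro i
      rw [Pool.Agent.TH823.Fam.energy_translate]
      exact (hr i).2
  have hP0 : (0 : ℝ) ≤ ∏ i, (x i : ℝ) := prod_nonneg fun i _ => Nat.cast_nonneg _
  calc (𝒮.card : ℝ) ≤ (∑ j ∈ Ω, (𝒮.filter (fun q => Q (fun i => j i + ⌊r i (q i)⌋))).card : ℕ) := by
        exact_mod_cast (card_le_card hcov).trans card_biUnion_le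
    _ ≤ ∑ _j ∈ Ω, (∏ i, (x i : ℝ)) / Real.log N ^ (U + (A + 1) * k) := by
        push_cast
        exact sum_le_sum hone
    _ = Ω.card * ((∏ i, (x i : ℝ)) / Real.log N ^ (U + (A + 1) * k)) := by rw [sum_const, nsmul_eq_mul]
    _ ≤ Real.log N ^ ((A + 1) * k) * ((∏ i, (x i : ℝ)) / Real.log N ^ (U + (A + 1) * k)) :=
        mul_le_mul_of_nonneg_right hΩc (by positivity)
    _ = (∏ i, (x i : ℝ)) / Real.log N ^ U := by
        rw [pow_add]
        field_simp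

end Pool.Agent.Q56.TF
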