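import Pool.Agent.Q56.TF.PSW

/-!
# From families of integers to windows of power length around real sequences, uniformly in the function
-/

set_option autoImplicit false

namespace Pool.Agent.Q56.TF

open Finset
open Pool.Agent.TH823.PS (GoodF good_order)

theorem wg_of_good (A : ℕ) {ι : Type*} [Fintype ι] (F : ι → ℕ → ℝ) (c : ι → ℝ)
    (hF : ∀ i, Base (F i) (c i)) (hc : ∀ i, 1 ≤ c i) : ∃ P B : ℕ, 1 ≤ P ∧ A ≤ B ∧ ∀ δ0 : ℝ, 0 < δ0 →
      ∃ δ : ℝ, 0 < δ ∧ δ ≤ 1 ∧ ∃ N₀ : ℕ, ∀ N : ℕ, N₀ ≤ N → ∀ (f : ℕ → ℂ) (ε : ℝ), 0 < ε → GoodF f B 1 P ε δ0 N →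
        ∀ i, WG f A ε δ (F i) (c i) N := by
  classical
  choose p B' h using fun i => nearP_base (hF i) (hc i) A
  refine ⟨∑ i, p i + 1, ∑ i, B' i + A, by omega, by omega, fun δ0 hδ0 => ?_⟩
  obtain ⟨θ, hθ⟩ : ∃ θ : ℝ, θ = min δ0 1 := ⟨_, rfl⟩
  have hθ0 : 0 < θ := by rw [hθ]; positivity
  have hθ1 : θ ≤ 1 := by rw [hθ]; exact min_le_right _ _
  have hθδ : θ ≤ δ0 := by rw [hθ]; exact min_le_left _ _
  choose N1 hN1 using fun i => h i θ hθ0 hθ1
  refine ⟨θ / 4, by positivity, by linarith, ∑ i, N1 i + 1, fun N hN f ε hε hG i => ?_⟩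
  have hNr : (1 : ℝ) ≤ N := by exact_mod_cast (by omega : 1 ≤ N)
  intro x hx1 hx2 β hβ a ha g hg S hS hb
  have hp := single_le_sum (f := p) (fun _ _ => Nat.zero_le _) (mem_univ i)
  have hB := single_le_sum (f := B') (fun _ _ => Nat.zero_le _) (mem_univ i)
  have hNi := single_le_sum (f := N1) (fun _ _ => Nat.zero_le _) (mem_univ i)
  have hG' : GoodF f (∑ i, B' i + A) 1 (p i) ε δ0 N := good_order (by omega) hG
  obtain ⟨s, hs1, hs2, hs3⟩ := hN1 i N (by omega) x hx1 hx2 β hβ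
    (fun b => ∃ X : ℕ, a * X ≤ A * N ∧ ε * N < ‖∑ n ∈ Icc 1 X, g n * Pool.Agent.H373R2.T7.exI f (a * n + b)‖)
  have h2 := hG' x s (fun m hm => (hs1 m hm).trans (by
      have h3 : (B' i : ℤ) ≤ ((∑ i, B' i + A : ℕ) : ℤ) := by exact_mod_cast (by omega : B' i ≤ ∑ i, B' i + A)
      exact mul_le_mul_of_nonneg_right h3 (by positivity)))
    (hs2.trans (mul_le_mul_of_nonneg_right (Real.rpow_le_rpow_of_exponent_le hNr hθδ) (by positivity)))
    (fun _ => a) (fun _ => g) (fun _ => ha) (by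
      intro _
      refine (sum_le_sum fun n _ => pow_le_one₀ (norm_nonneg _) (hg n)).trans ?_
      rw [sum_const, Nat.card_Icc, nsmul_eq_mul, mul_one, Nat.add_sub_cancel]
      exact_mod_cast Nat.div_le_self _ _)
  refine le_trans ?_ (h2.trans ?_)
  · apply Nat.cast_le.2
    apply card_le_card
    intro m hm
    rw [mem_filter]
    refine ⟨hS hm, fun hcon => ?_⟩
    obtain ⟨X, hX, h4⟩ := hs3 m (hb m hm)
    have h5 := hcon 0 X (hX.trans (Nat.mul_le_mul_right _ (by omega)))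
    linarith
  · apply mul_le_mul_of_nonneg_left _ (by positivity)
    exact Real.rpow_le_rpow_of_exponent_le hNr (by linarith)

end Pool.Agent.Q56.TF
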