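import Pool.Agent.TH935.HM5
import Pool.Agent.Q56.TF.Near

/-!
# Moduli in windows around real sequences: Hooley's asymptotic formula for the variance
-/

set_option autoImplicit false

namespace Pool.Agent.Q56.TF

open Finset
open Pool.Agent.H373R2.T7 (energy ev_L')
open Pool.Agent.TH894.PV (G psiAP)
open Pool.Agent.TH935.HM (Lp)

/-- the change of scale from `N` to `B N` -/
lemma rescale (B κ : ℕ) (hB : 1 ≤ B) : ∃ N₀ : ℕ, ∀ N : ℕ, N₀ ≤ N → 1 ≤ Real.log N ∧
    Real.log N ≤ Real.log ((B * N : ℕ) : ℝ) ∧ (B : ℝ) * Real.log N ^ κ ≤ Real.log ((B * N : ℕ) : ℝ) ^ (κ + 1) := by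
  obtain ⟨N₁, h1⟩ := ev_L' (B + 1)
  refine ⟨N₁ + 1, fun N hN => ?_⟩
  have c1 := h1 N (by omega)
  have hB1 : (1 : ℝ) ≤ B := by exact_mod_cast hB
  have hL1 : 1 ≤ Real.log N := by linarith
  have hle : Real.log N ≤ Real.log ((B * N : ℕ) : ℝ) := by
    apply Real.log_le_log (by exact_mod_cast (by omega : 0 < N))
    exact_mod_cast Nat.le_mul_of_pos_left N (by omega)
  refine ⟨hL1, hle, ?_⟩
  have hL0 : 0 ≤ Real.log N := by linarith
  calc (B : ℝ) * Real.log N ^ κ ≤ Real.log N * Real.log N ^ κ := by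
        apply mul_le_mul_of_nonneg_right (by linarith) (by positivity)
    _ = Real.log N ^ (κ + 1) := by rw [pow_succ, mul_comm]
    _ ≤ _ := pow_le_pow_left₀ hL0 hle _

/-- almost all windows consist of moduli with the asymptotic formula for the variance -/
theorem mod_near (A p B C κ U : ℕ) (hB : 1 ≤ B) (ε : ℝ) (hε : 0 < ε) (hε1 : ε ≤ 1) : ∃ N₀ : ℕ, ∀ N : ℕ, N₀ ≤ N →
    ∀ (x : ℕ) (r : ℕ → ℝ), Near A p B C N x r → ∀ S : Finset ℕ, S ⊆ Icc 1 x →
    (∀ m ∈ S, ∃ q : ℕ, |(q : ℝ) - r m| ≤ Real.log N ^ A ∧ (N : ℝ) ≤ q * Real.log N ^ κ ∧ ∃ y : ℝ,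
      (q : ℝ) ≤ y ∧ y ≤ q * Real.log N ^ κ ∧ ¬ |G y q - y * Real.log q| ≤ ε * (y * Real.log q)) →
    (S.card : ℝ) ≤ x / Real.log N ^ U := by
  obtain ⟨n1, h1⟩ := Pool.Agent.TH935.HM.mod_fam p (C + 1) (κ + 1) U ε hε hε1
  obtain ⟨n2, h2⟩ := rescale B κ hB
  obtain ⟨n3, h3⟩ := rescale B C hB
  refine ⟨n1 + n2 + n3 + 1, fun N hN x r hnear S hS hb => ?_⟩
  obtain ⟨hL1, hLL, hκ⟩ := h2 N (by omega)
  have hC := (h3 N (by omega)).2.2
  have hN' : n1 ≤ B * N := by nlinarith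
  have hL0 : 0 < Real.log N := by linarith
  have hN0 : (0 : ℝ) < N := by exact_mod_cast (by omega : 0 < N)
  refine hnear.count (fun a : ℤ => 0 < a ∧ ((B * N : ℕ) : ℝ) ≤ a.toNat * Real.log ((B * N : ℕ) : ℝ) ^ (κ + 1) ∧
    ∃ y : ℝ, (a.toNat : ℝ) ≤ y ∧ y ≤ a.toNat * Real.log ((B * N : ℕ) : ℝ) ^ (κ + 1) ∧
      ¬ |G y a.toNat - y * Real.log a.toNat| ≤ ε * (y * Real.log a.toNat)) (x / Real.log N ^ U) ?_ S hS ?_
  · intro s hs hE S hS hSP
    refine (h1 (B * N) hN' x s (fun m hm => ?_) ?_ S hS hSP).trans ?_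
    · have := hs m hm
      push_cast
      exact this
    · calc (energy p x s : ℝ) * ((B * N : ℕ) : ℝ) = B * (energy p x s * N) := by push_cast; ring
        _ ≤ B * (Real.log N ^ C * (x : ℝ) ^ (2 * p)) := by gcongr
        _ = (B * Real.log N ^ C) * (x : ℝ) ^ (2 * p) := by ring
        _ ≤ _ := mul_le_mul_of_nonneg_right hC (by positivity)
    · apply div_le_div_of_nonneg_left (Nat.cast_nonneg _) (by positivity)
      exact pow_le_pow_left₀ hL0.le hLL _
  · intro m hm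
    obtain ⟨q, hq1, hq2, y, hy1, hy2, hy3⟩ := hb m hm
    have hq0 : 0 < q := by
      by_contra hcon
      have : q = 0 := by omega
      rw [this] at hq2
      simp at hq2
      linarith
    have hκ1 : Real.log N ^ κ ≤ Real.log ((B * N : ℕ) : ℝ) ^ (κ + 1) := by
      refine le_trans ?_ hκ
      have : (1 : ℝ) ≤ B := by exact_mod_cast hB
      have h0 : 0 ≤ Real.log N ^ κ := by positivity
      nlinarith
    refine ⟨(q : ℤ), by exact_mod_cast hq1, by exact_mod_cast hq0, ?_, y, ?_, ?_, ?_⟩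
    · rw [Int.toNat_natCast]
      calc ((B * N : ℕ) : ℝ) = B * N := by push_cast; ring
        _ ≤ B * (q * Real.log N ^ κ) := by gcongr
        _ = q * (B * Real.log N ^ κ) := by ring
        _ ≤ _ := by gcongr
    · rw [Int.toNat_natCast]
      exact hy1
    · rw [Int.toNat_natCast]
      exact hy2.trans (mul_le_mul_of_nonneg_left hκ1 (Nat.cast_nonneg _))
    · rw [Int.toNat_natCast]
      exact hy3

/-- almost all windows consist of moduli with the bounds for the least primes -/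
theorem lp_near (A p B C κ U : ℕ) (hB : 1 ≤ B) (ε : ℝ) (hε : 0 < ε) (hε1 : ε ≤ 1) : ∃ N₀ : ℕ, ∀ N : ℕ, N₀ ≤ N →
    ∀ (x : ℕ) (r : ℕ → ℝ), Near A p B C N x r → ∀ S : Finset ℕ, S ⊆ Icc 1 x →
    (∀ m ∈ S, ∃ q : ℕ, |(q : ℝ) - r m| ≤ Real.log N ^ A ∧ (N : ℝ) ≤ q * Real.log N ^ κ ∧ ¬ Lp ε κ q q) →
    (S.card : ℝ) ≤ x / Real.log N ^ U := by
  obtain ⟨n1, h1⟩ := Pool.Agent.TH935.HM.lp_fam p (C + 1) (κ + 1) U ε hε hε1
  obtain ⟨n2, h2⟩ := rescale B κ hB
  obtain ⟨n3, h3⟩ := rescale B C hB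
  obtain ⟨n4, h4⟩ := Pool.Agent.H373R2.T7.ev_log' κ 3
  refine ⟨n1 + n2 + n3 + n4 + 1, fun N hN x r hnear S hS hb => ?_⟩
  obtain ⟨hL1, hLL, hκ⟩ := h2 N (by omega)
  have hC := (h3 N (by omega)).2.2
  have hN' : n1 ≤ B * N := by nlinarith
  have hL0 : 0 < Real.log N := by linarith
  have hN0 : (0 : ℝ) < N := by exact_mod_cast (by omega : 0 < N)
  refine hnear.count (fun a : ℤ => 0 < a ∧ ((B * N : ℕ) : ℝ) ≤ a.toNat * Real.log ((B * N : ℕ) : ℝ) ^ (κ + 1) ∧
    ¬ Lp ε (κ + 1) a.toNat a.toNat) (x / Real.log N ^ U) ?_ S hS ?_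
  · intro s hs hE S hS hSP
    refine (h1 (B * N) hN' x s (fun m hm => ?_) ?_ S hS hSP).trans ?_
    · have := hs m hm
      push_cast
      exact this
    · calc (energy p x s : ℝ) * ((B * N : ℕ) : ℝ) = B * (energy p x s * N) := by push_cast; ring
        _ ≤ B * (Real.log N ^ C * (x : ℝ) ^ (2 * p)) := by gcongr
        _ = (B * Real.log N ^ C) * (x : ℝ) ^ (2 * p) := by ring
        _ ≤ _ := mul_le_mul_of_nonneg_right hC (by positivity)
    · apply div_le_div_of_nonneg_left (Nat.cast_nonneg _) (by positivity)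
      exact pow_le_pow_left₀ hL0.le hLL _
  · intro m hm
    obtain ⟨q, hq1, hq2, hq3⟩ := hb m hm
    have hq0 : 0 < q := by
      by_contra hcon
      have : q = 0 := by omega
      rw [this] at hq2
      simp at hq2
      linarith
    refine ⟨(q : ℤ), by exact_mod_cast hq1, by exact_mod_cast hq0, ?_, ?_⟩
    · rw [Int.toNat_natCast]
      calc ((B * N : ℕ) : ℝ) = B * N := by push_cast; ring
        _ ≤ B * (q * Real.log N ^ κ) := by gcongr
        _ = q * (B * Real.log N ^ κ) := by ring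
        _ ≤ _ := by gcongr
    · rw [Int.toNat_natCast]
      intro h
      apply hq3
      intro lam h1 h2
      have h5 : 3 * Real.log N ^ κ ≤ N := by
        refine (h4 N (by omega)).trans ?_
        have hN1 : (1 : ℝ) ≤ N := by exact_mod_cast (by omega : 1 ≤ N)
        rw [Real.sqrt_le_left (by linarith)]
        nlinarith
      have h6 : 0 < Real.log N ^ κ := by positivity
      have h7 : (3 : ℝ) ≤ q := le_of_mul_le_mul_right (h5.trans hq2) h6
      have hq : 1 ≤ Real.log q := by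
        rw [Real.le_log_iff_exp_le (by linarith)]
        linarith [Real.exp_one_lt_d9]
      exact h lam h1 (h2.trans (pow_le_pow_right₀ hq (by omega)))

end Pool.Agent.Q56.TF
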