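import Pool.Agent.TH935.GF2
import Pool.Agent.H373R2.T7.SupLiou
import Pool.Agent.H373R2.T7.Minor

/-!
# Small multiples of the members of a family of nearly minimal energy
-/

set_option autoImplicit false

namespace Pool.Agent.Q56.TF

open Finset
open Pool.Agent.TH935.GF (En)

lemma En_mul (h : ℕ) {ι : Type} [Fintype ι] (v : ι → ℤ) (l : ℕ) (hl : 1 ≤ l) :
    En h (fun i => (l : ℤ) * v i) = En h v := by
  classical
  unfold En
  rw [Nat.card_eq_fintype_card, Nat.card_eq_fintype_card, Fintype.card_subtype, Fintype.card_subtype]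
  congr 1
  apply filter_congr
  intro q _
  rw [← mul_sum, ← mul_sum]
  constructor
  · intro h1
    exact mul_left_cancel₀ (by exact_mod_cast (by omega : l ≠ 0)) h1
  · intro h1
    rw [h1]

/-- if all the families of nearly minimal energy have few bad members, then few of the members of these families
have a bad multiple `l v` with `l ≤ log ^ κ N` -/
theorem multiples (p κ : ℕ) (Q : ℤ → Prop)
    (H : ∀ B C U : ℕ, ∃ N₀ : ℕ, ∀ N : ℕ, N₀ ≤ N → ∀ (ι : Type) [Fintype ι] (v : ι → ℤ), (∀ i, v i ≤ B * N) →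
      (En p v : ℝ) * N ≤ Real.log N ^ C * (Fintype.card ι : ℝ) ^ (2 * p) →
      ∀ S : Finset ι, (∀ i ∈ S, Q (v i)) → (S.card : ℝ) ≤ Fintype.card ι / Real.log N ^ U) (B C U : ℕ) :
    ∃ N₀ : ℕ, ∀ N : ℕ, N₀ ≤ N → ∀ (ι : Type) [Fintype ι] (v : ι → ℤ), (∀ i, v i ≤ B * N) →
      (En p v : ℝ) * N ≤ Real.log N ^ C * (Fintype.card ι : ℝ) ^ (2 * p) →
      ∀ S : Finset ι, (∀ i ∈ S, ∃ l : ℕ, 1 ≤ l ∧ (l : ℝ) ≤ Real.log N ^ κ ∧ Q (l * v i)) →
      (S.card : ℝ) ≤ Fintype.card ι / Real.log N ^ U := by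
  classical
  obtain ⟨N₁, h1⟩ := H B (C + κ) (U + κ)
  obtain ⟨N₂, h2⟩ := Pool.Agent.H373R2.T7.ev_L' 1
  refine ⟨N₁ + N₂ + 1, fun N hN ι _ v hv hE S hS => ?_⟩
  have hL1 : 1 ≤ Real.log (N : ℝ) := by
    have := h2 N (by omega)
    simpa using this
  have hN0 : (0 : ℝ) < N := by exact_mod_cast (by omega : 0 < N)
  have hL0 : 0 < Real.log (N : ℝ) := by linarith
  obtain ⟨K, hK⟩ : ∃ K : ℕ, K = ⌊Real.log (N : ℝ) ^ κ⌋₊ := ⟨_, rfl⟩
  have hK1 : 1 ≤ K := by
    rw [hK]
    exact Nat.le_floor (by exact_mod_cast one_le_pow₀ hL1)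
  have hKL : (K : ℝ) ≤ Real.log (N : ℝ) ^ κ := by
    rw [hK]
    exact Nat.floor_le (by positivity)
  have hlog : Real.log (N : ℝ) ≤ Real.log ((K * N : ℕ) : ℝ) := by
    apply Real.log_le_log hN0
    exact_mod_cast Nat.le_mul_of_pos_left N (by omega)
  have hNN : N₁ ≤ K * N := by
    have : N ≤ K * N := Nat.le_mul_of_pos_left N (by omega)
    omega
  have hcov : S ⊆ (Icc 1 K).biUnion (fun l => S.filter (fun i => Q ((l : ℤ) * v i))) := by
    intro i hi
    obtain ⟨l, hl1, hl2, hl3⟩ := hS i hi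
    rw [mem_biUnion]
    refine ⟨l, mem_Icc.2 ⟨hl1, ?_⟩, mem_filter.2 ⟨hi, hl3⟩⟩
    rw [hK]
    exact Nat.le_floor hl2
  have hone : ∀ l ∈ Icc 1 K, ((S.filter (fun i => Q ((l : ℤ) * v i))).card : ℝ) ≤
      Fintype.card ι / Real.log (N : ℝ) ^ (U + κ) := by
    intro l hl
    obtain ⟨hl1, hl2⟩ := mem_Icc.1 hl
    have h3 := h1 (K * N) hNN ι (fun i => (l : ℤ) * v i) (by
      intro i
      have h4 := hv i
      have h5 : (l : ℤ) ≤ K := by exact_mod_cast hl2
      have h6 : (0 : ℤ) ≤ (B : ℤ) * N := by positivity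
      have h7 : (0 : ℤ) ≤ l := Nat.cast_nonneg _
      calc (l : ℤ) * v i ≤ l * (B * N) := mul_le_mul_of_nonneg_left h4 h7
        _ ≤ K * (B * N) := mul_le_mul_of_nonneg_right h5 h6
        _ = B * ((K * N : ℕ) : ℤ) := by push_cast; ring) (by
      rw [En_mul p v l hl1]
      calc (En p v : ℝ) * ((K * N : ℕ) : ℝ) = K * (En p v * N) := by push_cast; ring
        _ ≤ Real.log (N : ℝ) ^ κ * (Real.log N ^ C * (Fintype.card ι : ℝ) ^ (2 * p)) := by
            apply mul_le_mul hKL hE (by positivity) (by positivity)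
        _ = Real.log (N : ℝ) ^ (C + κ) * (Fintype.card ι : ℝ) ^ (2 * p) := by rw [pow_add]; ring
        _ ≤ Real.log ((K * N : ℕ) : ℝ) ^ (C + κ) * (Fintype.card ι : ℝ) ^ (2 * p) := by
            apply mul_le_mul_of_nonneg_right _ (by positivity)
            exact pow_le_pow_left₀ hL0.le hlog _) (S.filter (fun i => Q ((l : ℤ) * v i)))
      (fun i hi => (mem_filter.1 hi).2)
    refine h3.trans ?_
    apply div_le_div_of_nonneg_left (by positivity) (by positivity)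
    exact pow_le_pow_left₀ hL0.le hlog _
  have h8 : (S.card : ℝ) ≤ ∑ l ∈ Icc 1 K, ((S.filter (fun i => Q ((l : ℤ) * v i))).card : ℝ) := by
    have h9 := (card_le_card hcov).trans card_biUnion_le
    exact_mod_cast h9
  calc (S.card : ℝ) ≤ ∑ l ∈ Icc 1 K, ((S.filter (fun i => Q ((l : ℤ) * v i))).card : ℝ) := h8
    _ ≤ ∑ _l ∈ Icc 1 K, Fintype.card ι / Real.log (N : ℝ) ^ (U + κ) := sum_le_sum hone
    _ = K * (Fintype.card ι / Real.log (N : ℝ) ^ (U + κ)) := by
        rw [sum_const, Nat.card_Icc, nsmul_eq_mul]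
        simp
    _ ≤ Real.log (N : ℝ) ^ κ * (Fintype.card ι / Real.log (N : ℝ) ^ (U + κ)) := by
        apply mul_le_mul_of_nonneg_right hKL (by positivity)
    _ = Fintype.card ι / Real.log (N : ℝ) ^ U := by
        rw [pow_add]
        field_simp

end Pool.Agent.Q56.TF
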