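import Pool.Agent.Q56.TF.Near

/-!
# Energies of different orders
-/

set_option autoImplicit false

namespace Pool.Agent.Q56.TF

open Finset
open Pool.Agent.H373R2.T7 (energy)

/-- the energy of the next order -/
lemma energy_succ (p x : ℕ) (s : ℕ → ℤ) : energy (p + 1) x s ≤ x ^ 2 * energy p x s := by
  classical
  obtain ⟨F, hF⟩ : ∃ F : Finset ((Fin (p + 1) → ℕ) × (Fin (p + 1) → ℕ)), F =
    ((Fintype.piFinset fun _ : Fin (p + 1) => Icc 1 x) ×ˢ (Fintype.piFinset fun _ : Fin (p + 1) => Icc 1 x)).filter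
      (fun q => ∑ i, s (q.1 i) = ∑ i, s (q.2 i)) := ⟨_, rfl⟩
  have h1 : energy (p + 1) x s = F.card := by rw [hF]; rfl
  have himg : (F.image (fun q => (q.1 0, q.2 0))).card ≤ x ^ 2 := by
    have hsub : F.image (fun q => (q.1 0, q.2 0)) ⊆ Icc 1 x ×ˢ Icc 1 x := by
      intro a ha
      obtain ⟨q, hq, rfl⟩ := mem_image.1 ha
      rw [hF, mem_filter, mem_product, Fintype.mem_piFinset, Fintype.mem_piFinset] at hq
      rw [mem_product]
      exact ⟨hq.1.1 0, hq.1.2 0⟩
    refine (card_le_card hsub).trans (le_of_eq ?_)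
    rw [card_product, Nat.card_Icc]
    simp only [Nat.add_sub_cancel]
    ring
  have hfib : ∀ a ∈ F.image (fun q => (q.1 0, q.2 0)), (F.filter (fun q => (q.1 0, q.2 0) = a)).card ≤ energy p x s := by
    intro a _
    have h2 := pairs_le (Om p x) (fun v => ∑ i, s (v i)) (s a.1 - s a.2)
    have h3 : ((Om p x ×ˢ Om p x).filter (fun q => ∑ i, s (q.2 i) = ∑ i, s (q.1 i))).card = energy p x s := by
      unfold energy Om
      congr 1
      apply filter_congr
      intro q _
      exact eq_comm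
    rw [← h3]
    refine le_trans ?_ h2
    apply card_le_card_of_injOn (fun q : (Fin (p + 1) → ℕ) × (Fin (p + 1) → ℕ) =>
      ((fun i => q.1 (Fin.succ i), fun i => q.2 (Fin.succ i)) : (Fin p → ℕ) × (Fin p → ℕ)))
    · intro q hq
      rw [mem_coe, mem_filter, hF, mem_filter, mem_product, Fintype.mem_piFinset, Fintype.mem_piFinset] at hq
      obtain ⟨⟨⟨h4, h5⟩, h6⟩, h7⟩ := hq
      rw [mem_coe, mem_filter, mem_product]
      unfold Om
      rw [Fintype.mem_piFinset, Fintype.mem_piFinset]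
      refine ⟨⟨fun i => h4 i.succ, fun i => h5 i.succ⟩, ?_⟩
      rw [Fin.sum_univ_succ, Fin.sum_univ_succ (fun i => s (q.2 i))] at h6
      rw [← h7]
      simp only
      linarith
    · intro q hq q' hq' h4
      rw [mem_coe, mem_filter] at hq hq'
      have h5 := hq.2.trans hq'.2.symm
      simp only [Prod.mk.injEq] at h4 h5
      apply Prod.ext
      · funext i
        refine Fin.cases h5.1 (fun j => ?_) i
        exact congrFun h4.1 j
      · funext i
        refine Fin.cases h5.2 (fun j => ?_) i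
        exact congrFun h4.2 j
  rw [h1]
  refine (card_le_mul_card_image F _ hfib).trans ?_
  rw [mul_comm]
  exact Nat.mul_le_mul_right _ himg

lemma Near.succ {A p B C N x : ℕ} {r : ℕ → ℝ} (h : Near A p B C N x r) :
    Near A (p + 1) B C N x r := by
  intro P
  obtain ⟨s, h1, h2, h3⟩ := h P
  refine ⟨s, h1, ?_, h3⟩
  have h4 : (energy (p + 1) x s : ℝ) ≤ (x : ℝ) ^ 2 * energy p x s := by exact_mod_cast energy_succ p x s
  have hN0 : (0 : ℝ) ≤ N := Nat.cast_nonneg _
  calc (energy (p + 1) x s : ℝ) * N ≤ ((x : ℝ) ^ 2 * energy p x s) * N := mul_le_mul_of_nonneg_right h4 hN0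
    _ = (x : ℝ) ^ 2 * (energy p x s * N) := by ring
    _ ≤ (x : ℝ) ^ 2 * (Real.log N ^ C * (x : ℝ) ^ (2 * p)) := mul_le_mul_of_nonneg_left h2 (by positivity)
    _ = Real.log N ^ C * (x : ℝ) ^ (2 * (p + 1)) := by ring

lemma Near.order {A p p' B C N x : ℕ} {r : ℕ → ℝ} (h : Near A p B C N x r) (hp : p ≤ p') :
    Near A p' B C N x r := by
  induction p', hp using Nat.le_induction with
  | base => exact h
  | succ q _ ih => exact ih.succ

end Pool.Agent.Q56.TF
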