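import Pool.Agent.TH823.PS.Fin4
import Pool.Agent.Q56.TF.PSW

/-!
# Boxes of power side around tuples of members of real sequences: sums over positive and negative integers
-/

set_option autoImplicit false

namespace Pool.Agent.Q56.TF

open Finset
open Pool.Agent.H373R2.T7 (exI)
open Pool.Agent.TH823.PS (evI shift_sum)

/-- boxes around tuples, sums over `|v| ≤ X`, functions at positive arguments -/
lemma tuples_one {f : ℕ → ℂ} {A k : ℕ} {F : Fin (k + 1) → ℕ → ℝ} {c : Fin (k + 1) → ℝ} {ε δ δ' : ℝ} {N : ℕ}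
    (hN : 1 ≤ N) (hδ0 : 0 ≤ δ') (hδ : δ' ≤ δ) {i₀ : Fin (k + 1)} (h : WG f (3 * A) ε δ (F i₀) (c i₀) N)
    (x : Fin (k + 1) → ℕ) (hx : (x i₀ : ℝ) ^ (c i₀) ≤ A * N ∧ (N : ℝ) ^ (1 - δ) ≤ (x i₀ : ℝ) ^ (c i₀))
    (β : Fin (k + 1) → ℝ) (hβ : |β i₀| ≤ A * N) {a : ℕ} (ha : 1 ≤ a) (haA : a ≤ A) (w : (Fin k → ℤ) → ℤ → ℂ)
    (hw : ∀ b n, ‖w b n‖ ≤ 1) (bad : (Fin (k + 1) → ℕ) → Prop) [DecidablePred bad]
    (hbad : ∀ m, bad m → ∃ b : Fin (k + 1) → ℤ, (∀ i, |(b i : ℝ) - (β i + F i (m i))| ≤ (N : ℝ) ^ δ') ∧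
      ∃ X : ℕ, X ≤ N ∧ 2 * (ε * N) < ‖∑ v ∈ Icc (-(X : ℤ)) X, w (i₀.removeNth b) v * exI f (a * v + b i₀)‖) :
    (((Fintype.piFinset fun i => Icc 1 (x i)).filter bad).card : ℝ) ≤
      (∏ i, (x i : ℝ)) * ((7 : ℝ) ^ k * (N : ℝ) ^ (k * δ') * (N : ℝ) ^ (-δ)) := by
  classical
  have hN1 : (1 : ℝ) ≤ N := by exact_mod_cast hN
  refine tuples_win (A := 3 * A) hN hδ0 hδ h x ⟨hx.1.trans ?_, hx.2⟩
    (Function.update β i₀ (β i₀ - a * (N + 1))) ?_ ha (fun b j => w b ((j : ℤ) - N - 1)) (fun b j => hw _ _) bad ?_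
  · push_cast
    have : 0 ≤ (A : ℝ) * N := by positivity
    linarith
  · rw [Function.update_self]
    refine (abs_sub _ _).trans ?_
    have h2 : |(a : ℝ) * (N + 1)| = a * (N + 1) := abs_of_nonneg (by positivity)
    rw [h2]
    have h3 : (a : ℝ) * (N + 1) ≤ A * (2 * N) := by
      have h4 : (a : ℝ) ≤ A := by exact_mod_cast haA
      exact mul_le_mul h4 (by linarith) (by positivity) (by positivity)
    push_cast
    linarith
  · intro m hm
    obtain ⟨b, hb, X, hX, h3⟩ := hbad m hm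
    rw [shift_sum (fun v => w (i₀.removeNth b) v * exI f (a * v + b i₀)) hX] at h3
    have e1 : ∀ j : ℕ, exI f (a * ((j : ℤ) - N - 1) + b i₀) = exI f (a * j + (b i₀ - a * (N + 1))) := by
      intro j; congr 1; ring
    simp only [e1] at h3
    have hrem : i₀.removeNth (Function.update b i₀ (b i₀ - a * (N + 1))) = i₀.removeNth b := by
      funext j
      unfold Fin.removeNth
      rw [Function.update_of_ne (Fin.succAbove_ne i₀ j)]
    have key : ∃ Y : ℕ, a * Y ≤ 3 * A * N ∧ ε * N < ‖∑ j ∈ Icc 1 Y, w (i₀.removeNth b) ((j : ℤ) - N - 1) *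
        exI f (a * j + (b i₀ - a * (N + 1)))‖ := by
      by_contra hcon
      push Not at hcon
      have h4 := hcon (N + 1 + X) (by
        calc a * (N + 1 + X) ≤ A * (3 * N) := Nat.mul_le_mul haA (by omega)
          _ = 3 * A * N := by ring)
      have h5 := hcon (N - X) (by
        calc a * (N - X) ≤ A * (3 * N) := Nat.mul_le_mul haA (by omega)
          _ = 3 * A * N := by ring)
      have h6 := norm_sub_le (∑ j ∈ Icc 1 (N + 1 + X), w (i₀.removeNth b) ((j : ℤ) - N - 1) *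
        exI f (a * j + (b i₀ - a * (N + 1)))) (∑ j ∈ Icc 1 (N - X), w (i₀.removeNth b) ((j : ℤ) - N - 1) *
        exI f (a * j + (b i₀ - a * (N + 1))))
      linarith
    obtain ⟨Y, hY, h4⟩ := key
    refine ⟨Function.update b i₀ (b i₀ - a * (N + 1)), fun i => ?_, Y, hY, ?_⟩
    · by_cases hi : i = i₀
      · subst hi
        rw [Function.update_self, Function.update_self]
        have h5 := hb i
        have e2 : (((b i - a * (N + 1) : ℤ)) : ℝ) - (β i - a * (N + 1) + F i (m i)) = (b i : ℝ) - (β i + F i (m i)) := by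
          push_cast
          ring
        rw [e2]
        exact h5
      · rw [Function.update_of_ne hi, Function.update_of_ne hi]
        exact hb i
    · simp only [hrem, Function.update_self]
      exact h4

/-- boxes around tuples, sums over `|v| ≤ X`, the even extension -/
lemma tuples_two {f : ℕ → ℂ} {A k : ℕ} {F : Fin (k + 1) → ℕ → ℝ} {c : Fin (k + 1) → ℝ} {ε δ δ' : ℝ} {N : ℕ}
    (hN : 1 ≤ N) (hδ0 : 0 ≤ δ') (hδ : δ' ≤ δ) {i₀ : Fin (k + 1)} (h : WG f (3 * A) (ε / 4) δ (F i₀) (c i₀) N)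
    (h' : WG f (3 * A) (ε / 4) δ (fun m => (-1) * F i₀ m) (c i₀) N)
    (x : Fin (k + 1) → ℕ) (hx : (x i₀ : ℝ) ^ (c i₀) ≤ A * N ∧ (N : ℝ) ^ (1 - δ) ≤ (x i₀ : ℝ) ^ (c i₀))
    (β : Fin (k + 1) → ℝ) (hβ : |β i₀| ≤ A * N) {a : ℕ} (ha : 1 ≤ a) (haA : a ≤ A) (w : (Fin k → ℤ) → ℤ → ℂ)
    (hw : ∀ b n, ‖w b n‖ ≤ 1) (bad : (Fin (k + 1) → ℕ) → Prop) [DecidablePred bad]
    (hbad : ∀ m, bad m → ∃ b : Fin (k + 1) → ℤ, (∀ i, |(b i : ℝ) - (β i + F i (m i))| ≤ (N : ℝ) ^ δ') ∧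
      ∃ X : ℕ, X ≤ N ∧ ε * N < ‖∑ v ∈ Icc (-(X : ℤ)) X, w (i₀.removeNth b) v * evI f (a * v + b i₀)‖) :
    (((Fintype.piFinset fun i => Icc 1 (x i)).filter bad).card : ℝ) ≤
      2 * ((∏ i, (x i : ℝ)) * ((7 : ℝ) ^ k * (N : ℝ) ^ (k * δ') * (N : ℝ) ^ (-δ))) := by
  classical
  obtain ⟨S, hS⟩ : ∃ S : Finset (Fin (k + 1) → ℕ), S = Fintype.piFinset fun i => Icc 1 (x i) := ⟨_, rfl⟩
  obtain ⟨b1, hb1⟩ : ∃ b1 : (Fin (k + 1) → ℕ) → Prop, b1 = fun m =>
    ∃ b : Fin (k + 1) → ℤ, (∀ i, |(b i : ℝ) - (β i + F i (m i))| ≤ (N : ℝ) ^ δ') ∧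
      ∃ X : ℕ, X ≤ N ∧ 2 * (ε / 4 * N) < ‖∑ v ∈ Icc (-(X : ℤ)) X, w (i₀.removeNth b) v * exI f (a * v + b i₀)‖ := ⟨_, rfl⟩
  obtain ⟨b2, hb2⟩ : ∃ b2 : (Fin (k + 1) → ℕ) → Prop, b2 = fun m =>
    ∃ b : Fin (k + 1) → ℤ, (∀ i, |(b i : ℝ) - (β i + F i (m i))| ≤ (N : ℝ) ^ δ') ∧
      ∃ X : ℕ, X ≤ N ∧ 2 * (ε / 4 * N) <
        ‖∑ v ∈ Icc (-(X : ℤ)) X, w (i₀.removeNth b) (-v) * exI f (a * v + (-b i₀))‖ := ⟨_, rfl⟩
  have h1 : ((S.filter b1).card : ℝ) ≤ (∏ i, (x i : ℝ)) * ((7 : ℝ) ^ k * (N : ℝ) ^ (k * δ') * (N : ℝ) ^ (-δ)) := by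
    rw [hS]
    exact tuples_one hN hδ0 hδ h x hx β hβ ha haA w hw b1 (fun m hm => by rw [hb1] at hm; exact hm)
  have h2 : ((S.filter b2).card : ℝ) ≤ (∏ i, (x i : ℝ)) * ((7 : ℝ) ^ k * (N : ℝ) ^ (k * δ') * (N : ℝ) ^ (-δ)) := by
    rw [hS]
    refine tuples_one (F := Function.update F i₀ (fun m => (-1) * F i₀ m)) (c := c) (i₀ := i₀) hN hδ0 hδ
      (by rw [Function.update_self]; exact h') x hx
      (Function.update β i₀ (-β i₀)) (by rw [Function.update_self, abs_neg]; exact hβ) ha haA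
      (fun b v => w b (-v)) (fun b n => hw _ _) b2 ?_
    intro m hm
    rw [hb2] at hm
    obtain ⟨b, hb, X, hX, h3⟩ := hm
    have hrem : i₀.removeNth (Function.update b i₀ (-b i₀)) = i₀.removeNth b := by
      funext j
      unfold Fin.removeNth
      rw [Function.update_of_ne (Fin.succAbove_ne i₀ j)]
    refine ⟨Function.update b i₀ (-b i₀), fun i => ?_, X, hX, ?_⟩
    · by_cases hi : i = i₀
      · subst hi
        rw [Function.update_self, Function.update_self, Function.update_self]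
        have h5 := hb i
        have e2 : ((-b i : ℤ) : ℝ) - (-β i + -1 * F i (m i)) = -((b i : ℝ) - (β i + F i (m i))) := by
          push_cast
          ring
        rw [e2, abs_neg]
        exact h5
      · rw [Function.update_of_ne hi, Function.update_of_ne hi, Function.update_of_ne hi]
        exact hb i
    · simp only [hrem, Function.update_self]
      exact h3
  have hsub : S.filter bad ⊆ S.filter b1 ∪ S.filter b2 := by
    intro m hm
    rw [mem_filter] at hm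
    obtain ⟨b, hb, X, hX, h4⟩ := hbad m hm.2
    rw [mem_union, mem_filter, mem_filter]
    by_contra hcon
    rw [not_or, not_and, not_and] at hcon
    have h5 := hcon.1 hm.1
    have h6 := hcon.2 hm.1
    rw [hb1] at h5
    rw [hb2] at h6
    push Not at h5 h6
    have h7 := h5 b hb X hX
    have h8 := h6 b hb X hX
    have e1 : ∑ v ∈ Icc (-(X : ℤ)) X, w (i₀.removeNth b) (-v) * exI f (a * v + (-b i₀)) =
        ∑ v ∈ Icc (-(X : ℤ)) X, w (i₀.removeNth b) v * exI f (-(a * v + b i₀)) := by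
      refine sum_nbij' (fun v => -v) (fun v => -v) ?_ ?_ ?_ ?_ ?_
      · intro v hv; rw [mem_Icc] at hv ⊢; omega
      · intro v hv; rw [mem_Icc] at hv ⊢; omega
      · intro v _; simp
      · intro v _; simp
      · intro v _
        congr 2
        ring
    rw [e1] at h8
    have e2 : ∑ v ∈ Icc (-(X : ℤ)) X, w (i₀.removeNth b) v * evI f (a * v + b i₀) =
        ∑ v ∈ Icc (-(X : ℤ)) X, w (i₀.removeNth b) v * exI f (a * v + b i₀) +
        ∑ v ∈ Icc (-(X : ℤ)) X, w (i₀.removeNth b) v * exI f (-(a * v + b i₀)) := by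
      rw [← sum_add_distrib]
      apply sum_congr rfl
      intro v _
      unfold evI
      ring
    rw [e2] at h4
    have h9 := norm_add_le (∑ v ∈ Icc (-(X : ℤ)) X, w (i₀.removeNth b) v * exI f (a * v + b i₀))
      (∑ v ∈ Icc (-(X : ℤ)) X, w (i₀.removeNth b) v * exI f (-(a * v + b i₀)))
    linarith
  have h4 : ((S.filter bad).card : ℝ) ≤ ((S.filter b1).card : ℝ) + ((S.filter b2).card : ℝ) := by
    exact_mod_cast (card_le_card hsub).trans (card_union_le _ _)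
  rw [hS] at h4 h1 h2
  linarith

end Pool.Agent.Q56.TF
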