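import Pool.Agent.Q56.TF.Mod
import Pool.Agent.Q56.TF.Typ

/-!
# Windows around real sequences, from theorems on arbitrary finite families of integers of size at most the scale
-/

set_option autoImplicit false

namespace Pool.Agent.Q56.TF

open Finset
open Pool.Agent.TH935.GF (En)

/-- from arbitrary finite families of integers in `[-B N, B N]`, at the scale `B N`, to windows around real
sequences -/
theorem near_resc (A p B C V : ℕ) (hB : 1 ≤ B) : ∃ N₀ : ℕ, ∀ N : ℕ, N₀ ≤ N → ∀ (x : ℕ) (r : ℕ → ℝ),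
    Near A p B C N x r → ∀ Q : ℤ → Prop,
    (∀ (ι : Type) [Fintype ι] (v : ι → ℤ), (∀ i, |v i| ≤ ((B * N : ℕ) : ℤ)) →
      (En p v : ℝ) * ((B * N : ℕ) : ℝ) ≤ Real.log ((B * N : ℕ) : ℝ) ^ (C + 1) * (Fintype.card ι : ℝ) ^ (2 * p) →
      ∀ S : Finset ι, (∀ i ∈ S, Q (v i)) → (S.card : ℝ) ≤ Fintype.card ι / Real.log ((B * N : ℕ) : ℝ) ^ V) →
    ∀ S : Finset ℕ, S ⊆ Icc 1 x → (∀ m ∈ S, ∃ a : ℤ, |(a : ℝ) - r m| ≤ Real.log N ^ A ∧ Q a) →
    (S.card : ℝ) ≤ x / Real.log N ^ V := by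
  obtain ⟨n2, h2⟩ := rescale B C hB
  refine ⟨n2 + 1, fun N hN x r hnear Q H S hS hb => ?_⟩
  obtain ⟨hL1, hLL, hC⟩ := h2 N (by omega)
  have hL0 : 0 < Real.log N := by linarith
  refine near_types hnear (Q := Q) ?_ S hS hb
  intro ι _ v hv hE S hSQ
  refine (H ι v (fun i => by push_cast; exact hv i) ?_ S hSQ).trans ?_
  · calc (En p v : ℝ) * ((B * N : ℕ) : ℝ) = B * (En p v * N) := by push_cast; ring
      _ ≤ B * (Real.log N ^ C * (Fintype.card ι : ℝ) ^ (2 * p)) := by gcongr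
      _ = (B * Real.log N ^ C) * (Fintype.card ι : ℝ) ^ (2 * p) := by ring
      _ ≤ _ := mul_le_mul_of_nonneg_right hC (by positivity)
  · apply div_le_div_of_nonneg_left (Nat.cast_nonneg _) (by positivity)
    exact pow_le_pow_left₀ hL0.le hLL _

end Pool.Agent.Q56.TF
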