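import Pool.Agent.Q56.TF.Near
import Pool.Agent.H560R3.GB.Defs

/-!
# Subfamilies of positive integers of families of nearly minimal energy
-/

set_option autoImplicit false

namespace Pool.Agent.Q56.TF

open Finset
open Pool.Agent.H373R2.T7 (energy ev_L')

/-- from families of integers in `[1, N]` to arbitrary families of integers: few members are bad integers of
`[1, N]` -/
theorem subfam (h C U : ℕ) (P : ℕ → ℕ → Prop)
    (H : ∀ C : ℕ, ∃ N₀ : ℕ, ∀ N : ℕ, N₀ ≤ N → ∀ (x : ℕ) (s : ℕ → ℕ), (∀ m ∈ Icc 1 x, 1 ≤ s m ∧ s m ≤ N) →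
      (Pool.Agent.H560R3.GB.energy h x s : ℝ) * N ≤ Real.log N ^ C * (x : ℝ) ^ (2 * h) →
      ∀ S : Finset ℕ, S ⊆ Icc 1 x → (∀ m ∈ S, ¬ P N (s m)) → (S.card : ℝ) ≤ x / Real.log N) :
    ∃ N₀ : ℕ, ∀ N : ℕ, N₀ ≤ N → ∀ (x : ℕ) (s : ℕ → ℤ),
      (energy h x s : ℝ) * N ≤ Real.log N ^ C * (x : ℝ) ^ (2 * h) →
      ∀ S : Finset ℕ, S ⊆ Icc 1 x → (∀ m ∈ S, 1 ≤ s m ∧ s m ≤ N ∧ ¬ P N (s m).toNat) →
      (S.card : ℝ) ≤ x / Real.log N ^ U := by
  classical
  obtain ⟨N₁, h1⟩ := H (C + U * (2 * h))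
  obtain ⟨N₂, h2⟩ := ev_L' 2
  refine ⟨N₁ + N₂ + 1, fun N hN x s hE S hS hSb => ?_⟩
  have hL2 : 2 ≤ Real.log (N : ℝ) := by
    have := h2 N (by omega)
    exact_mod_cast this
  have hL0 : 0 < Real.log (N : ℝ) := by linarith
  have hN0 : (0 : ℝ) < N := by exact_mod_cast (by omega : 0 < N)
  by_contra hcon
  push Not at hcon
  obtain ⟨y, hy⟩ : ∃ y, y = S.card := ⟨_, rfl⟩
  rw [← hy] at hcon
  have hx0 : (0 : ℝ) ≤ x := Nat.cast_nonneg _
  have hy0 : (0 : ℝ) < y := lt_of_le_of_lt (by positivity) hcon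
  have hxy : (x : ℝ) ≤ y * Real.log N ^ U := by
    rw [div_lt_iff₀ (by positivity)] at hcon
    exact hcon.le
  obtain ⟨e⟩ : Nonempty ((Icc 1 y : Finset ℕ) ≃ S) :=
    ⟨Finset.equivOfCardEq (by rw [Nat.card_Icc, hy]; omega)⟩
  obtain ⟨f, hf⟩ : ∃ f : ℕ → ℕ, f = fun m => if hm : m ∈ Icc 1 y then (e ⟨m, hm⟩ : ℕ) else 0 := ⟨_, rfl⟩
  have hf1 : ∀ m (hm : m ∈ Icc 1 y), f m = (e ⟨m, hm⟩ : ℕ) := by
    intro m hm
    rw [hf]
    simp only
    rw [dif_pos hm]
  have hfS : ∀ m ∈ Icc 1 y, f m ∈ S := by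
    intro m hm
    rw [hf1 m hm]
    exact (e ⟨m, hm⟩).2
  have hfinj : ∀ m ∈ Icc 1 y, ∀ m' ∈ Icc 1 y, f m = f m' → m = m' := by
    intro m hm m' hm' h2
    rw [hf1 m hm, hf1 m' hm'] at h2
    have h3 := e.injective (Subtype.ext h2)
    exact congrArg Subtype.val h3
  obtain ⟨g, hg⟩ : ∃ g : ℕ → ℕ, g = fun m => (s (f m)).toNat := ⟨_, rfl⟩
  have hgv : ∀ m ∈ Icc 1 y, ((g m : ℕ) : ℤ) = s (f m) := by
    intro m hm
    have h3 := (hSb _ (hfS m hm)).1
    rw [hg]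
    exact Int.toNat_of_nonneg (by omega)
  have hen : Pool.Agent.H560R3.GB.energy h y g ≤ energy h x s := by
    unfold Pool.Agent.H560R3.GB.energy energy
    apply card_le_card_of_injOn (fun q => (fun j => f (q.1 j), fun j => f (q.2 j)))
    · intro q hq
      rw [mem_coe, mem_filter, mem_product, Fintype.mem_piFinset, Fintype.mem_piFinset] at hq
      rw [mem_coe, mem_filter, mem_product, Fintype.mem_piFinset, Fintype.mem_piFinset]
      refine ⟨⟨fun j => hS (hfS _ (hq.1.1 j)), fun j => hS (hfS _ (hq.1.2 j))⟩, ?_⟩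
      have e1 : ∀ v : Fin h → ℕ, (∀ j, v j ∈ Icc 1 y) → ∑ j, s (f (v j)) = ((∑ j, g (v j) : ℕ) : ℤ) := by
        intro v hv
        rw [Nat.cast_sum]
        exact sum_congr rfl fun j _ => (hgv _ (hv j)).symm
      simp only
      rw [e1 _ hq.1.1, e1 _ hq.1.2, hq.2]
    · intro q hq q' hq' h2
      rw [mem_coe, mem_filter, mem_product, Fintype.mem_piFinset, Fintype.mem_piFinset] at hq hq'
      simp only [Prod.mk.injEq] at h2
      apply Prod.ext
      · funext j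
        exact hfinj _ (hq.1.1 j) _ (hq'.1.1 j) (congrFun h2.1 j)
      · funext j
        exact hfinj _ (hq.1.2 j) _ (hq'.1.2 j) (congrFun h2.2 j)
  have henr : (Pool.Agent.H560R3.GB.energy h y g : ℝ) ≤ energy h x s := by exact_mod_cast hen
  have key := h1 N (by omega) y g (fun m hm => by
      have h3 := hSb _ (hfS m hm)
      have h4 := hgv m hm
      constructor
      · have : (1 : ℤ) ≤ (g m : ℕ) := by rw [h4]; exact h3.1
        exact_mod_cast this
      · have : ((g m : ℕ) : ℤ) ≤ N := by rw [h4]; exact h3.2.1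
        exact_mod_cast this) (by
    calc (Pool.Agent.H560R3.GB.energy h y g : ℝ) * N ≤ energy h x s * N := mul_le_mul_of_nonneg_right henr hN0.le
      _ ≤ Real.log N ^ C * (x : ℝ) ^ (2 * h) := hE
      _ ≤ Real.log N ^ C * (y * Real.log N ^ U) ^ (2 * h) := by gcongr
      _ = Real.log N ^ (C + U * (2 * h)) * (y : ℝ) ^ (2 * h) := by
          rw [mul_pow, pow_add, ← pow_mul]
          ring) (Icc 1 y) (Subset.refl _) (fun m hm => by
    have h3 := (hSb _ (hfS m hm)).2.2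
    have h4 : g m = (s (f m)).toNat := by rw [hg]
    rw [h4]
    exact h3)
  rw [Nat.card_Icc] at key
  simp only [Nat.add_sub_cancel] at key
  rw [le_div_iff₀ hL0] at key
  nlinarith

end Pool.Agent.Q56.TF
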